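import Mathlib

set_option autoImplicit false

namespace Pool.Agent.H.MP_75988d_co

/-- The block of entries in positions `i, …, j` (positions counted from `1`). -/
def block (p : List ℤ) (r : ℕ × ℕ) : List ℤ := (p.drop (r.1 - 1)).take (r.2 + 1 - r.1)

/-- The reversal `ρ_{i,j}`, `r = (i, j)`: reverse the block in positions `i, …, j` and change
the sign of each of its entries. -/
def rev (p : List ℤ) (r : ℕ × ℕ) : List ℤ :=
  p.take (r.1 - 1) ++ (block p r).reverse.map (fun x => -x) ++ p.drop r.2

/-- The identity `(1, 2, …, n)`. -/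
def idPerm (n : ℕ) : List ℤ := (List.range n).map (fun i => (i : ℤ) + 1)

/-- `p = (π_1, …, π_n)` is a signed permutation of size `n`: the absolute values of the entries
are `1, …, n` in some order. -/
def IsSignedPerm (n : ℕ) (p : List ℤ) : Prop :=
  (p.map (fun x => |x|)).Perm (idPerm n)

/-- The sequence `s` of reversals `ρ_{i,j}`, `1 ≤ i ≤ j ≤ n`, sorts `p`. -/
def Sorts (n : ℕ) (p : List ℤ) (s : List (ℕ × ℕ)) : Prop :=
  (∀ r ∈ s, 1 ≤ r.1 ∧ r.1 ≤ r.2 ∧ r.2 ≤ n) ∧ s.foldl rev p = idPerm n

/-- The reversal distance: the least length of a sorting sequence. -/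
noncomputable def dist (n : ℕ) (p : List ℤ) : ℕ :=
  sInf {k | ∃ s, Sorts n p s ∧ s.length = k}

/-- An optimal scenario: a sorting sequence of length `d(π)`. -/
def Optimal (n : ℕ) (p : List ℤ) (s : List (ℕ × ℕ)) : Prop :=
  Sorts n p s ∧ s.length = dist n p

/-- Adjacency in `G_4`: the two scenarios differ in at most `4` indices. -/
def Adj (s t : List (ℕ × ℕ)) : Prop :=
  (s.zip t).countP (fun x => x.1 ≠ x.2) ≤ 4

/-- The sets of elements (absolute values of entries) moved by the successive reversals of a
scenario started at `p`. -/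
def contents : List ℤ → List (ℕ × ℕ) → List (Finset ℕ)
  | _, [] => []
  | p, r :: s => ((block p r).map Int.natAbs).toFinset :: contents (rev p r) s

/-- A looser adjacency: ignoring order, all but at most `4` reversals of `s` occur in `t`
(with multiplicity), reversals being compared either as pairs of positions or as sets of
elements moved. -/
def LooseAdj (p : List ℤ) (s t : List (ℕ × ℕ)) : Prop :=
  s.length ≤ ((s : Multiset (ℕ × ℕ)) ∩ (t : Multiset (ℕ × ℕ))).card + 4 ∨
  s.length ≤ ((contents p s : Multiset (Finset ℕ)) ∩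
    (contents p t : Multiset (Finset ℕ))).card + 4

/-! ### Breakpoints -/

def bp : List ℤ → ℕ
  | a :: b :: l => (if b = a + 1 then 0 else 1) + bp (b :: l)
  | _ => 0

theorem bp_append_le (X Y : List ℤ) : bp (X ++ Y) ≤ bp X + bp Y + 1 := by
  induction X with
  | nil => simp [bp]
  | cons a X ih =>
    cases X with
    | nil =>
      cases Y with
      | nil => simp [bp]
      | cons b Y =>
        simp only [List.cons_append, List.nil_append, bp]
        split_ifs <;> omega
    | cons b X =>
      simp only [List.cons_append, bp] at ih ⊢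
      omega

theorem le_bp_append (X Y : List ℤ) : bp X + bp Y ≤ bp (X ++ Y) := by
  induction X with
  | nil => simp [bp]
  | cons a X ih =>
    cases X with
    | nil =>
      cases Y with
      | nil => simp [bp]
      | cons b Y =>
        simp only [List.cons_append, List.nil_append, bp]
        omega
    | cons b X =>
      simp only [List.cons_append, bp] at ih ⊢
      omega

theorem bp_snoc (X : List ℤ) (a b : ℤ) :
    bp (X ++ [a, b]) = bp (X ++ [a]) + (if b = a + 1 then 0 else 1) := by
  induction X with
  | nil => simp [bp]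
  | cons c X ih =>
    cases X with
    | nil =>
      simp only [List.cons_append, List.nil_append, bp]
      omega
    | cons d X =>
      simp only [List.cons_append, bp] at ih ⊢
      omega

theorem bp_rev (B : List ℤ) : bp (B.reverse.map (fun x => -x)) = bp B := by
  induction B with
  | nil => simp [bp]
  | cons a B ih =>
    cases B with
    | nil => simp [bp]
    | cons b B =>
      have e : (a :: b :: B).reverse.map (fun x => -x) =
          B.reverse.map (fun x => -x) ++ [-b, -a] := by simp
      have e' : (b :: B).reverse.map (fun x => -x) =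
          B.reverse.map (fun x => -x) ++ [-b] := by simp
      rw [e, bp_snoc, ← e', ih]
      simp only [bp]
      have : (-a = -b + 1) ↔ (b = a + 1) := by constructor <;> intro h <;> omega
      simp only [this]
      omega

def frame (n : ℕ) (p : List ℤ) : List ℤ := 0 :: (p ++ [(n : ℤ) + 1])

theorem split (p : List ℤ) (r : ℕ × ℕ) (h1 : 1 ≤ r.1) (h2 : r.1 ≤ r.2) :
    p = p.take (r.1 - 1) ++ block p r ++ p.drop r.2 := by
  have e : p.drop r.2 = (p.drop (r.1 - 1)).drop (r.2 + 1 - r.1) := by
    rw [List.drop_drop]; congr 1; omega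
  rw [e, block, List.append_assoc, List.take_append_drop, List.take_append_drop]

theorem bp_step (n : ℕ) (p : List ℤ) (r : ℕ × ℕ) (h1 : 1 ≤ r.1) (h2 : r.1 ≤ r.2) :
    bp (frame n p) ≤ bp (frame n (rev p r)) + 2 := by
  have e1 : frame n p = (0 :: p.take (r.1 - 1)) ++ (block p r ++ (p.drop r.2 ++ [(n : ℤ) + 1])) := by
    conv_lhs => rw [split p r h1 h2]
    simp [frame]
  have e2 : frame n (rev p r) = (0 :: p.take (r.1 - 1)) ++
      ((block p r).reverse.map (fun x => -x) ++ (p.drop r.2 ++ [(n : ℤ) + 1])) := by
    simp [frame, rev]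
  rw [e1, e2]
  have a1 := bp_append_le (0 :: p.take (r.1 - 1)) (block p r ++ (p.drop r.2 ++ [(n : ℤ) + 1]))
  have a2 := bp_append_le (block p r) (p.drop r.2 ++ [(n : ℤ) + 1])
  have b1 := le_bp_append (0 :: p.take (r.1 - 1))
    ((block p r).reverse.map (fun x => -x) ++ (p.drop r.2 ++ [(n : ℤ) + 1]))
  have b2 := le_bp_append ((block p r).reverse.map (fun x => -x)) (p.drop r.2 ++ [(n : ℤ) + 1])
  have c := bp_rev (block p r)
  omega

theorem bp_le (n : ℕ) (h0 : bp (frame n (idPerm n)) = 0) (s : List (ℕ × ℕ)) :
    ∀ p : List ℤ, Sorts n p s → bp (frame n p) ≤ 2 * s.length := by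
  induction s with
  | nil =>
    intro p h
    have : p = idPerm n := h.2
    rw [this, h0]; simp
  | cons r s ih =>
    intro p h
    have hr := h.1 r (by simp)
    have := ih (rev p r) ⟨fun x hx => h.1 x (by simp [hx]), h.2⟩
    have := bp_step n p r hr.1 hr.2.1
    simp only [List.length_cons]
    omega

/-! ### The pruned enumeration of all sorting sequences -/

def moves (n : ℕ) : List (ℕ × ℕ) :=
  (List.range' 1 n).flatMap fun i => ((List.range' 1 n).filter fun j => i ≤ j).map fun j => (i, j)

theorem mem_moves (n : ℕ) (r : ℕ × ℕ) (h : 1 ≤ r.1 ∧ r.1 ≤ r.2 ∧ r.2 ≤ n) : r ∈ moves n := by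
  obtain ⟨i, j⟩ := r
  simp only [moves, List.mem_flatMap, List.mem_map, List.mem_filter, List.mem_range'_1,
    decide_eq_true_eq, Prod.mk.injEq]
  dsimp only at h
  exact ⟨i, by omega, j, ⟨by omega, h.2.1⟩, rfl, rfl⟩

def forceInt {α : Type} (x : ℤ) (k : ℤ → α) : α :=
  match x with
  | Int.ofNat 0 => k 0
  | Int.ofNat (m + 1) => k (Int.ofNat (m + 1))
  | Int.negSucc 0 => k (Int.negSucc 0)
  | Int.negSucc (m + 1) => k (Int.negSucc (m + 1))

theorem forceInt_eq {α : Type} (x : ℤ) (k : ℤ → α) : forceInt x k = k x := by
  unfold forceInt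
  split <;> rfl

def force {α : Type} : List ℤ → (List ℤ → α) → α
  | [], k => k []
  | a :: l, k => forceInt a fun a' => force l fun l' => k (a' :: l')

theorem force_eq {α : Type} (l : List ℤ) : ∀ k : List ℤ → α, force l k = k l := by
  induction l with
  | nil => intro k; rfl
  | cons a l ih => intro k; simp only [force, forceInt_eq, ih]

def allSort (n : ℕ) (M : List (ℕ × ℕ)) : ℕ → List ℤ → List (List (ℕ × ℕ))
  | 0, p => if p = idPerm n then [[]] else []
  | k + 1, p => if 2 * (k + 1) < bp (frame n p) then [] else
      M.flatMap fun r => force (rev p r) fun q => (allSort n M k q).map (fun s => r :: s)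

theorem mem_allSort (n : ℕ) (h0 : bp (frame n (idPerm n)) = 0) (s : List (ℕ × ℕ)) :
    ∀ p : List ℤ, Sorts n p s → s ∈ allSort n (moves n) s.length p := by
  induction s with
  | nil =>
    intro p h
    have : p = idPerm n := h.2
    simp [allSort, this]
  | cons r s ih =>
    intro p h
    have hb := bp_le n h0 _ p h
    have hr := h.1 r (by simp)
    have := ih (rev p r) ⟨fun x hx => h.1 x (by simp [hx]), h.2⟩
    simp only [List.length_cons] at hb ⊢
    rw [allSort, if_neg (by omega)]
    simp only [force_eq, List.mem_flatMap, List.mem_map]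
    exact ⟨r, mem_moves n r hr, s, this, rfl⟩

end Pool.Agent.H.MP_75988d_co
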