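import Pool.Agent.H.MP_75988d_co.Defs

set_option autoImplicit false

namespace Pool.Agent.H.MP_75988d_co

def M7 : List (ℕ × ℕ) :=
  [(1, 1), (1, 2), (1, 3), (1, 4), (1, 5), (1, 6), (1, 7), (2, 2), (2, 3), (2, 4), (2, 5), (2, 6), (2, 7), (3, 3), (3, 4), (3, 5), (3, 6), (3, 7), (4, 4), (4, 5), (4, 6), (4, 7), (5, 5), (5, 6), (5, 7), (6, 6), (6, 7), (7, 7)]

theorem moves7 : moves 7 = M7 := by decide +kernel

def p7 : List ℤ := [-2, 1, 5, 4, 3, 7, 6]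

def LA : List (List (ℕ × ℕ)) :=
  [[(1, 4), (2, 6), (2, 7), (2, 6), (1, 4), (1, 1)],
   [(1, 4), (2, 6), (2, 7), (2, 6), (4, 4), (1, 4)],
   [(1, 4), (2, 6), (2, 7), (4, 4), (2, 6), (1, 4)],
   [(1, 4), (2, 6), (3, 7), (2, 7), (1, 4), (1, 1)],
   [(1, 4), (2, 6), (3, 7), (2, 7), (4, 4), (1, 4)],
   [(1, 4), (2, 6), (3, 7), (5, 5), (2, 7), (1, 4)],
   [(1, 4), (2, 6), (5, 5), (2, 7), (2, 6), (1, 4)],
   [(1, 4), (2, 6), (5, 5), (3, 7), (2, 7), (1, 4)],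
   [(1, 4), (2, 7), (3, 7), (2, 6), (1, 4), (1, 1)],
   [(1, 4), (2, 7), (3, 7), (2, 6), (4, 4), (1, 4)],
   [(1, 4), (2, 7), (3, 7), (4, 4), (2, 6), (1, 4)],
   [(1, 4), (2, 7), (6, 6), (3, 7), (2, 6), (1, 4)],
   [(1, 4), (3, 3), (2, 6), (2, 7), (2, 6), (1, 4)],
   [(1, 4), (3, 3), (2, 6), (3, 7), (2, 7), (1, 4)],
   [(1, 4), (3, 3), (2, 7), (3, 7), (2, 6), (1, 4)],
   [(2, 2), (1, 4), (2, 6), (2, 7), (2, 6), (1, 4)],
   [(2, 2), (1, 4), (2, 6), (3, 7), (2, 7), (1, 4)],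
   [(2, 2), (1, 4), (2, 7), (3, 7), (2, 6), (1, 4)]]

def LB : List (List (ℕ × ℕ)) :=
  [[(2, 4), (3, 6), (3, 7), (3, 6), (2, 4), (1, 2)],
   [(2, 4), (3, 6), (4, 7), (3, 7), (2, 4), (1, 2)],
   [(2, 4), (3, 7), (4, 7), (3, 6), (2, 4), (1, 2)]]

theorem short : ∀ k < 6, allSort 7 M7 k p7 = [] := by decide +kernel

def Good (r : ℕ × ℕ) (G : List (ℕ × ℕ)) : Prop :=
  ∀ r' ∈ G, ∀ s ∈ allSort 7 M7 4 (rev (rev p7 r) r'), (r :: r' :: s) ∈ LA ++ LB

instance (r : ℕ × ℕ) (G : List (ℕ × ℕ)) : Decidable (Good r G) := by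
  unfold Good; infer_instance

theorem Good.append {r : ℕ × ℕ} {G H : List (ℕ × ℕ)} (h1 : Good r G) (h2 : Good r H) :
    Good r (G ++ H) := fun r' hr => (List.mem_append.1 hr).elim (h1 r') (h2 r')

theorem g11_0 : Good (1, 1)
    [(1, 1), (1, 2), (1, 3), (1, 4), (1, 5), (1, 6), (1, 7), (2, 2), (2, 3), (2, 4), (2, 5), (2, 6), (2, 7), (3, 3), (3, 4), (3, 5), (3, 6), (3, 7), (4, 4), (4, 5), (4, 6), (4, 7), (5, 5), (5, 6), (5, 7), (6, 6), (6, 7)] := by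
  decide +kernel

theorem g11_1 : Good (1, 1)
    [(7, 7)] := by
  decide +kernel

theorem g11 : Good (1, 1) M7 := g11_0.append (g11_1)

theorem g12_0 : Good (1, 2)
    [(1, 1), (1, 2), (1, 3), (1, 4), (1, 5), (1, 6), (1, 7), (2, 2)] := by
  decide +kernel

theorem g12_1 : Good (1, 2)
    [(2, 3), (2, 4), (2, 5), (2, 6), (2, 7), (3, 3), (3, 4), (3, 5), (3, 6), (3, 7), (4, 4), (4, 5), (4, 6)] := by
  decide +kernel

theorem g12_2 : Good (1, 2)
    [(4, 7), (5, 5), (5, 6), (5, 7), (6, 6), (6, 7), (7, 7)] := by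
  decide +kernel

theorem g12 : Good (1, 2) M7 := g12_0.append (g12_1.append (g12_2))

theorem g13_0 : Good (1, 3)
    [(1, 1), (1, 2), (1, 3), (1, 4), (1, 5), (1, 6), (1, 7), (2, 2), (2, 3), (2, 4), (2, 5), (2, 6), (2, 7), (3, 3), (3, 4), (3, 5)] := by
  decide +kernel

theorem g13_1 : Good (1, 3)
    [(3, 6), (3, 7), (4, 4), (4, 5), (4, 6), (4, 7), (5, 5), (5, 6), (5, 7), (6, 6), (6, 7), (7, 7)] := by
  decide +kernel

theorem g13 : Good (1, 3) M7 := g13_0.append (g13_1)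

theorem g14_0 : Good (1, 4)
    [(1, 1), (1, 2), (1, 3), (1, 4)] := by
  decide +kernel

theorem g14_1 : Good (1, 4)
    [(1, 5), (1, 6), (1, 7), (2, 2), (2, 3), (2, 4)] := by
  decide +kernel

theorem g14_2 : Good (1, 4)
    [(2, 5)] := by
  decide +kernel

theorem g14_3 : Good (1, 4)
    [(2, 6)] := by
  decide +kernel

theorem g14_4 : Good (1, 4)
    [(2, 7)] := by
  decide +kernel

theorem g14_5 : Good (1, 4)
    [(3, 3), (3, 4)] := by
  decide +kernel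

theorem g14_6 : Good (1, 4)
    [(3, 5), (3, 6), (3, 7), (4, 4), (4, 5), (4, 6), (4, 7), (5, 5), (5, 6), (5, 7)] := by
  decide +kernel

theorem g14_7 : Good (1, 4)
    [(6, 6), (6, 7), (7, 7)] := by
  decide +kernel

theorem g14 : Good (1, 4) M7 := g14_0.append (g14_1.append (g14_2.append (g14_3.append (g14_4.append (g14_5.append (g14_6.append (g14_7)))))))

theorem g15_0 : Good (1, 5)
    [(1, 1), (1, 2), (1, 3), (1, 4), (1, 5), (1, 6), (1, 7), (2, 2), (2, 3), (2, 4), (2, 5), (2, 6), (2, 7), (3, 3), (3, 4), (3, 5), (3, 6), (3, 7)] := by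
  decide +kernel

theorem g15_1 : Good (1, 5)
    [(4, 4), (4, 5), (4, 6), (4, 7), (5, 5), (5, 6), (5, 7), (6, 6), (6, 7), (7, 7)] := by
  decide +kernel

theorem g15 : Good (1, 5) M7 := g15_0.append (g15_1)

theorem g16_0 : Good (1, 6)
    [(1, 1), (1, 2), (1, 3), (1, 4), (1, 5), (1, 6), (1, 7), (2, 2), (2, 3), (2, 4), (2, 5), (2, 6), (2, 7), (3, 3), (3, 4), (3, 5)] := by
  decide +kernel

theorem g16_1 : Good (1, 6)
    [(3, 6), (3, 7), (4, 4), (4, 5), (4, 6), (4, 7), (5, 5), (5, 6), (5, 7), (6, 6), (6, 7), (7, 7)] := by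
  decide +kernel

theorem g16 : Good (1, 6) M7 := g16_0.append (g16_1)

theorem g17_0 : Good (1, 7)
    [(1, 1), (1, 2), (1, 3), (1, 4), (1, 5), (1, 6), (1, 7), (2, 2), (2, 3), (2, 4), (2, 5), (2, 6), (2, 7), (3, 3), (3, 4), (3, 5), (3, 6), (3, 7), (4, 4), (4, 5), (4, 6)] := by
  decide +kernel

theorem g17_1 : Good (1, 7)
    [(4, 7), (5, 5), (5, 6), (5, 7), (6, 6), (6, 7), (7, 7)] := by
  decide +kernel

theorem g17 : Good (1, 7) M7 := g17_0.append (g17_1)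

theorem g22_0 : Good (2, 2)
    [(1, 1), (1, 2), (1, 3)] := by
  decide +kernel

theorem g22_1 : Good (2, 2)
    [(1, 4), (1, 5)] := by
  decide +kernel

theorem g22_2 : Good (2, 2)
    [(1, 6), (1, 7), (2, 2), (2, 3), (2, 4), (2, 5), (2, 6), (2, 7), (3, 3), (3, 4), (3, 5)] := by
  decide +kernel

theorem g22_3 : Good (2, 2)
    [(3, 6), (3, 7), (4, 4), (4, 5), (4, 6)] := by
  decide +kernel

theorem g22_4 : Good (2, 2)
    [(4, 7), (5, 5), (5, 6), (5, 7), (6, 6)] := by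
  decide +kernel

theorem g22_5 : Good (2, 2)
    [(6, 7), (7, 7)] := by
  decide +kernel

theorem g22 : Good (2, 2) M7 := g22_0.append (g22_1.append (g22_2.append (g22_3.append (g22_4.append (g22_5)))))

theorem g23_0 : Good (2, 3)
    [(1, 1), (1, 2), (1, 3), (1, 4), (1, 5), (1, 6), (1, 7), (2, 2), (2, 3), (2, 4), (2, 5), (2, 6), (2, 7), (3, 3), (3, 4), (3, 5)] := by
  decide +kernel

theorem g23_1 : Good (2, 3)
    [(3, 6), (3, 7), (4, 4), (4, 5), (4, 6), (4, 7), (5, 5), (5, 6), (5, 7), (6, 6), (6, 7), (7, 7)] := by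
  decide +kernel

theorem g23 : Good (2, 3) M7 := g23_0.append (g23_1)

theorem g24_0 : Good (2, 4)
    [(1, 1), (1, 2), (1, 3), (1, 4), (1, 5), (1, 6), (1, 7), (2, 2)] := by
  decide +kernel

theorem g24_1 : Good (2, 4)
    [(2, 3), (2, 4), (2, 5), (2, 6), (2, 7), (3, 3), (3, 4), (3, 5), (3, 6)] := by
  decide +kernel

theorem g24_2 : Good (2, 4)
    [(3, 7), (4, 4), (4, 5), (4, 6), (4, 7), (5, 5), (5, 6), (5, 7), (6, 6), (6, 7), (7, 7)] := by
  decide +kernel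

theorem g24 : Good (2, 4) M7 := g24_0.append (g24_1.append (g24_2))

theorem g25_0 : Good (2, 5)
    [(1, 1), (1, 2), (1, 3), (1, 4), (1, 5), (1, 6), (1, 7), (2, 2), (2, 3), (2, 4), (2, 5), (2, 6), (2, 7), (3, 3), (3, 4), (3, 5), (3, 6), (3, 7), (4, 4), (4, 5), (4, 6), (4, 7)] := by
  decide +kernel

theorem g25_1 : Good (2, 5)
    [(5, 5), (5, 6), (5, 7), (6, 6), (6, 7), (7, 7)] := by
  decide +kernel

theorem g25 : Good (2, 5) M7 := g25_0.append (g25_1)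

theorem g26_0 : Good (2, 6)
    [(1, 1), (1, 2), (1, 3), (1, 4), (1, 5), (1, 6), (1, 7), (2, 2), (2, 3), (2, 4), (2, 5), (2, 6), (2, 7), (3, 3), (3, 4), (3, 5), (3, 6), (3, 7), (4, 4)] := by
  decide +kernel

theorem g26_1 : Good (2, 6)
    [(4, 5), (4, 6), (4, 7), (5, 5), (5, 6), (5, 7), (6, 6), (6, 7), (7, 7)] := by
  decide +kernel

theorem g26 : Good (2, 6) M7 := g26_0.append (g26_1)

theorem g27_0 : Good (2, 7)
    [(1, 1), (1, 2), (1, 3), (1, 4), (1, 5), (1, 6), (1, 7), (2, 2), (2, 3), (2, 4), (2, 5), (2, 6), (2, 7), (3, 3), (3, 4), (3, 5), (3, 6), (3, 7), (4, 4), (4, 5), (4, 6), (4, 7), (5, 5)] := by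
  decide +kernel

theorem g27_1 : Good (2, 7)
    [(5, 6), (5, 7), (6, 6), (6, 7), (7, 7)] := by
  decide +kernel

theorem g27 : Good (2, 7) M7 := g27_0.append (g27_1)

theorem g33_0 : Good (3, 3)
    [(1, 1), (1, 2), (1, 3), (1, 4), (1, 5), (1, 6), (1, 7), (2, 2), (2, 3), (2, 4), (2, 5), (2, 6), (2, 7), (3, 3), (3, 4), (3, 5)] := by
  decide +kernel

theorem g33_1 : Good (3, 3)
    [(3, 6), (3, 7), (4, 4), (4, 5), (4, 6), (4, 7), (5, 5), (5, 6), (5, 7), (6, 6), (6, 7), (7, 7)] := by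
  decide +kernel

theorem g33 : Good (3, 3) M7 := g33_0.append (g33_1)

theorem g34_0 : Good (3, 4)
    [(1, 1), (1, 2), (1, 3), (1, 4), (1, 5), (1, 6), (1, 7), (2, 2), (2, 3), (2, 4), (2, 5), (2, 6), (2, 7), (3, 3), (3, 4), (3, 5), (3, 6), (3, 7), (4, 4)] := by
  decide +kernel

theorem g34_1 : Good (3, 4)
    [(4, 5), (4, 6), (4, 7), (5, 5), (5, 6), (5, 7), (6, 6), (6, 7), (7, 7)] := by
  decide +kernel

theorem g34 : Good (3, 4) M7 := g34_0.append (g34_1)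

theorem g35_0 : Good (3, 5)
    [(1, 1), (1, 2), (1, 3), (1, 4), (1, 5), (1, 6), (1, 7), (2, 2), (2, 3), (2, 4), (2, 5), (2, 6), (2, 7), (3, 3), (3, 4), (3, 5), (3, 6), (3, 7), (4, 4), (4, 5), (4, 6), (4, 7), (5, 5)] := by
  decide +kernel

theorem g35_1 : Good (3, 5)
    [(5, 6), (5, 7), (6, 6), (6, 7), (7, 7)] := by
  decide +kernel

theorem g35 : Good (3, 5) M7 := g35_0.append (g35_1)

theorem g36_0 : Good (3, 6)
    [(1, 1), (1, 2), (1, 3), (1, 4), (1, 5), (1, 6), (1, 7), (2, 2), (2, 3), (2, 4), (2, 5), (2, 6), (2, 7), (3, 3), (3, 4), (3, 5), (3, 6), (3, 7)] := by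
  decide +kernel

theorem g36_1 : Good (3, 6)
    [(4, 4), (4, 5), (4, 6), (4, 7), (5, 5), (5, 6), (5, 7), (6, 6), (6, 7), (7, 7)] := by
  decide +kernel

theorem g36 : Good (3, 6) M7 := g36_0.append (g36_1)

theorem g37_0 : Good (3, 7)
    [(1, 1), (1, 2), (1, 3), (1, 4), (1, 5), (1, 6), (1, 7), (2, 2), (2, 3), (2, 4), (2, 5), (2, 6), (2, 7), (3, 3), (3, 4), (3, 5), (3, 6), (3, 7), (4, 4), (4, 5), (4, 6)] := by
  decide +kernel

theorem g37_1 : Good (3, 7)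
    [(4, 7), (5, 5), (5, 6), (5, 7), (6, 6), (6, 7), (7, 7)] := by
  decide +kernel

theorem g37 : Good (3, 7) M7 := g37_0.append (g37_1)

theorem g44_0 : Good (4, 4)
    [(1, 1), (1, 2), (1, 3), (1, 4), (1, 5), (1, 6), (1, 7), (2, 2), (2, 3), (2, 4), (2, 5), (2, 6), (2, 7), (3, 3)] := by
  decide +kernel

theorem g44_1 : Good (4, 4)
    [(3, 4), (3, 5), (3, 6), (3, 7), (4, 4), (4, 5), (4, 6), (4, 7), (5, 5), (5, 6), (5, 7), (6, 6), (6, 7), (7, 7)] := by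
  decide +kernel

theorem g44 : Good (4, 4) M7 := g44_0.append (g44_1)

theorem g45_0 : Good (4, 5)
    [(1, 1), (1, 2), (1, 3), (1, 4), (1, 5), (1, 6), (1, 7), (2, 2), (2, 3), (2, 4), (2, 5), (2, 6), (2, 7), (3, 3)] := by
  decide +kernel

theorem g45_1 : Good (4, 5)
    [(3, 4), (3, 5), (3, 6), (3, 7), (4, 4), (4, 5), (4, 6), (4, 7), (5, 5), (5, 6), (5, 7), (6, 6), (6, 7), (7, 7)] := by
  decide +kernel

theorem g45 : Good (4, 5) M7 := g45_0.append (g45_1)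

theorem g46_0 : Good (4, 6)
    [(1, 1), (1, 2), (1, 3), (1, 4), (1, 5), (1, 6), (1, 7), (2, 2), (2, 3), (2, 4), (2, 5), (2, 6), (2, 7), (3, 3), (3, 4)] := by
  decide +kernel

theorem g46_1 : Good (4, 6)
    [(3, 5), (3, 6), (3, 7), (4, 4), (4, 5), (4, 6), (4, 7), (5, 5), (5, 6), (5, 7), (6, 6), (6, 7), (7, 7)] := by
  decide +kernel

theorem g46 : Good (4, 6) M7 := g46_0.append (g46_1)

theorem g47_0 : Good (4, 7)
    [(1, 1), (1, 2), (1, 3), (1, 4), (1, 5), (1, 6), (1, 7), (2, 2), (2, 3), (2, 4), (2, 5), (2, 6), (2, 7), (3, 3), (3, 4), (3, 5)] := by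
  decide +kernel

theorem g47_1 : Good (4, 7)
    [(3, 6), (3, 7), (4, 4), (4, 5), (4, 6), (4, 7), (5, 5), (5, 6), (5, 7), (6, 6), (6, 7), (7, 7)] := by
  decide +kernel

theorem g47 : Good (4, 7) M7 := g47_0.append (g47_1)

theorem g55_0 : Good (5, 5)
    [(1, 1), (1, 2), (1, 3), (1, 4), (1, 5), (1, 6), (1, 7), (2, 2), (2, 3), (2, 4), (2, 5), (2, 6), (2, 7), (3, 3), (3, 4), (3, 5), (3, 6), (3, 7), (4, 4), (4, 5), (4, 6)] := by
  decide +kernel

theorem g55_1 : Good (5, 5)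
    [(4, 7), (5, 5), (5, 6), (5, 7), (6, 6), (6, 7), (7, 7)] := by
  decide +kernel

theorem g55 : Good (5, 5) M7 := g55_0.append (g55_1)

theorem g56_0 : Good (5, 6)
    [(1, 1), (1, 2), (1, 3), (1, 4), (1, 5), (1, 6), (1, 7), (2, 2), (2, 3), (2, 4), (2, 5), (2, 6), (2, 7), (3, 3), (3, 4), (3, 5), (3, 6), (3, 7), (4, 4), (4, 5)] := by
  decide +kernel

theorem g56_1 : Good (5, 6)
    [(4, 6), (4, 7), (5, 5), (5, 6), (5, 7), (6, 6), (6, 7), (7, 7)] := by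
  decide +kernel

theorem g56 : Good (5, 6) M7 := g56_0.append (g56_1)

theorem g57_0 : Good (5, 7)
    [(1, 1), (1, 2), (1, 3), (1, 4), (1, 5), (1, 6), (1, 7), (2, 2), (2, 3), (2, 4), (2, 5), (2, 6), (2, 7), (3, 3), (3, 4), (3, 5), (3, 6), (3, 7), (4, 4)] := by
  decide +kernel

theorem g57_1 : Good (5, 7)
    [(4, 5), (4, 6), (4, 7), (5, 5), (5, 6), (5, 7), (6, 6), (6, 7), (7, 7)] := by
  decide +kernel

theorem g57 : Good (5, 7) M7 := g57_0.append (g57_1)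

theorem g66_0 : Good (6, 6)
    [(1, 1), (1, 2), (1, 3), (1, 4), (1, 5), (1, 6), (1, 7), (2, 2), (2, 3), (2, 4), (2, 5), (2, 6), (2, 7), (3, 3), (3, 4), (3, 5)] := by
  decide +kernel

theorem g66_1 : Good (6, 6)
    [(3, 6), (3, 7), (4, 4), (4, 5), (4, 6), (4, 7), (5, 5), (5, 6), (5, 7), (6, 6), (6, 7), (7, 7)] := by
  decide +kernel

theorem g66 : Good (6, 6) M7 := g66_0.append (g66_1)

theorem g67_0 : Good (6, 7)
    [(1, 1), (1, 2), (1, 3), (1, 4), (1, 5), (1, 6), (1, 7), (2, 2), (2, 3), (2, 4), (2, 5), (2, 6), (2, 7), (3, 3), (3, 4), (3, 5), (3, 6)] := by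
  decide +kernel

theorem g67_1 : Good (6, 7)
    [(3, 7), (4, 4), (4, 5), (4, 6), (4, 7), (5, 5), (5, 6), (5, 7), (6, 6), (6, 7), (7, 7)] := by
  decide +kernel

theorem g67 : Good (6, 7) M7 := g67_0.append (g67_1)

theorem g77_0 : Good (7, 7)
    [(1, 1), (1, 2), (1, 3), (1, 4), (1, 5), (1, 6), (1, 7), (2, 2), (2, 3), (2, 4), (2, 5), (2, 6), (2, 7), (3, 3), (3, 4), (3, 5), (3, 6)] := by
  decide +kernel

theorem g77_1 : Good (7, 7)
    [(3, 7), (4, 4), (4, 5), (4, 6), (4, 7), (5, 5), (5, 6), (5, 7), (6, 6), (6, 7), (7, 7)] := by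
  decide +kernel

theorem g77 : Good (7, 7) M7 := g77_0.append (g77_1)

theorem goodAll : ∀ r ∈ M7, Good r M7 := by
  intro r hr
  simp only [M7, List.mem_cons, List.not_mem_nil, or_false] at hr
  rcases hr with rfl | rfl | rfl | rfl | rfl | rfl | rfl | rfl | rfl | rfl | rfl | rfl | rfl | rfl | rfl | rfl | rfl | rfl | rfl | rfl | rfl | rfl | rfl | rfl | rfl | rfl | rfl | rfl
  exacts [g11, g12, g13, g14, g15, g16, g17, g22, g23, g24, g25, g26, g27, g33, g34, g35, g36, g37, g44, g45, g46, g47, g55, g56, g57, g66, g67, g77]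

theorem bp0 : bp (frame 7 (idPerm 7)) = 0 := by decide +kernel

theorem len_ge (s : List (ℕ × ℕ)) (h : Sorts 7 p7 s) : 6 ≤ s.length := by
  by_contra hlt
  have h1 := mem_allSort 7 bp0 s p7 h
  rw [moves7, short s.length (by omega)] at h1
  simp at h1

theorem mem_of_len (s : List (ℕ × ℕ)) (h : Sorts 7 p7 s) (hl : s.length = 6) : s ∈ LA ++ LB := by
  match s, h, hl with
  | r :: r' :: s, h, hl =>
    have hr := mem_moves 7 r (h.1 r (by simp))
    have hr' := mem_moves 7 r' (h.1 r' (by simp))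
    have h1 := mem_allSort 7 bp0 s (rev (rev p7 r) r') ⟨fun x hx => h.1 x (by simp [hx]), h.2⟩
    have hs : s.length = 4 := by simpa using hl
    rw [moves7] at hr hr' h1
    rw [hs] at h1
    exact goodAll r hr r' hr' s h1

instance (n : ℕ) (p : List ℤ) (s : List (ℕ × ℕ)) : Decidable (Sorts n p s) := by
  unfold Sorts; infer_instance

theorem sorts_all : ∀ s ∈ LA ++ LB, Sorts 7 p7 s ∧ s.length = 6 := by decide +kernel

theorem dist7 : dist 7 p7 = 6 := by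
  have hm : 6 ∈ {k | ∃ s, Sorts 7 p7 s ∧ s.length = k} :=
    ⟨_, sorts_all [(2, 4), (3, 6), (3, 7), (3, 6), (2, 4), (1, 2)] (by decide +kernel)⟩
  apply le_antisymm (Nat.sInf_le hm)
  obtain ⟨s, hs, hl⟩ := Nat.sInf_mem ⟨6, hm⟩
  have := len_ge s hs
  omega

theorem optimal_iff (s : List (ℕ × ℕ)) : Optimal 7 p7 s ↔ s ∈ LA ++ LB := by
  unfold Optimal
  rw [dist7]
  exact ⟨fun h => mem_of_len s h.1 h.2, sorts_all s⟩

instance (s t : List (ℕ × ℕ)) : Decidable (Adj s t) := by unfold Adj; infer_instance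

instance (p : List ℤ) (s t : List (ℕ × ℕ)) : Decidable (LooseAdj p s t) := by
  unfold LooseAdj; infer_instance

theorem sep : ∀ a ∈ LB, ∀ b ∈ LA, ¬ (Adj a b ∨ LooseAdj p7 a b) := by decide +kernel

theorem perm7 : IsSignedPerm 7 p7 := by unfold IsSignedPerm; decide +kernel

theorem closed (t : List (ℕ × ℕ)) (s : List (ℕ × ℕ)) (hs : s ∈ LB)
    (h : Relation.ReflTransGen
      (fun a b => Optimal 7 p7 a ∧ Optimal 7 p7 b ∧ (Adj a b ∨ LooseAdj p7 a b)) s t) :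
    t ∈ LB := by
  induction h with
  | refl => exact hs
  | tail _ hbc ih =>
    rcases List.mem_append.1 ((optimal_iff _).1 hbc.2.1) with h' | h'
    · exact absurd hbc.2.2 (sep _ ih _ h')
    · exact h'

theorem main : ∃ s t, Optimal 7 p7 s ∧ Optimal 7 p7 t ∧ ¬ Relation.ReflTransGen
      (fun a b => Optimal 7 p7 a ∧ Optimal 7 p7 b ∧ (Adj a b ∨ LooseAdj p7 a b)) s t := by
  refine ⟨[(2, 4), (3, 6), (3, 7), (3, 6), (2, 4), (1, 2)],
    [(1, 4), (2, 6), (2, 7), (2, 6), (1, 4), (1, 1)],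
    (optimal_iff _).2 (by decide +kernel), (optimal_iff _).2 (by decide +kernel), fun h => ?_⟩
  have := closed _ _ (by decide +kernel) h
  revert this
  decide +kernel

end Pool.Agent.H.MP_75988d_co
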